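import Pool.Agent.H61.KV.TG

/-!
# Kuiper board KV, module EXT: where a line leaves a face
-/

set_option autoImplicit false

open Set

namespace Pool.Agent.H56.KV.EXT

open Pool.Agent.H61.KV

theorem pf_EXT (h : T_FCB) : T_EXT := by
  intro V _ _ _ C p w hC hp hw hwC
  obtain ⟨hpF, -, -, -, hSpC, hdir, -⟩ := h V C p hC hp
  obtain ⟨ε, hε, hεF⟩ := hdir w hw
  -- the parameters for which the point is in `C`
  let S : Set ℝ := {s | 0 ≤ s ∧ p + s • w ∈ C}
  have hεS : ε ∈ S := ⟨hε.le, (hεF ε hε.le le_rfl).1⟩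
  have hSclosed : IsClosed S := by
    apply IsClosed.inter isClosed_Ici
    exact hC.closed.preimage (by fun_prop)
  obtain ⟨δ, hδ, hball⟩ := Metric.isOpen_iff.1 hC.closed.isOpen_compl w hwC
  have hbd : ∀ s ∈ S, s ≤ ‖p‖ / δ := by
    rintro s ⟨hs0, hsC⟩
    by_contra hcon
    push Not at hcon
    have hspos : 0 < s := lt_of_le_of_lt (by positivity) hcon
    have h1 : s⁻¹ • (p + s • w) ∈ C := hC.smul _ (inv_nonneg.2 hs0) _ hsC
    have h2 : s⁻¹ • (p + s • w) ∈ Metric.ball w δ := by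
      rw [Metric.mem_ball, dist_eq_norm, smul_add, smul_smul, inv_mul_cancel₀ hspos.ne', one_smul,
        add_sub_cancel_right, norm_smul, Real.norm_eq_abs, abs_of_pos (inv_pos.2 hspos)]
      rw [div_lt_iff₀ hδ] at hcon
      rw [inv_mul_lt_iff₀ hspos]
      exact hcon
    exact hball h2 h1
  have hcpt : IsCompact S := by
    apply Metric.isCompact_of_isClosed_isBounded hSclosed
    apply (Metric.isBounded_Icc 0 (‖p‖ / δ)).subset
    intro s hs
    exact ⟨hs.1, hbd s hs⟩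
  obtain ⟨s, hsS, hsmax⟩ := hcpt.exists_isGreatest ⟨ε, hεS⟩
  have hspos : 0 < s := lt_of_lt_of_le hε (hsmax hεS)
  have hqC : p + s • w ∈ C := hsS.2
  have hpSp : p ∈ Sp C p := Submodule.subset_span hpF
  have hqF : p + s • w ∈ Fc C p :=
    hSpC _ hqC (Submodule.add_mem _ hpSp (Submodule.smul_mem _ _ hw))
  refine ⟨s, hspos, hqF, ?_⟩
  intro hpq
  -- the two faces are equal
  have hFeq : Fc C (p + s • w) = Fc C p := (h V C p hC hp).2.2.2.2.2.2 _ hqF hpq
  obtain ⟨-, -, -, -, -, hdir', -⟩ := h V C (p + s • w) hC hqC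
  have hwq : w ∈ Sp C (p + s • w) := by
    unfold Sp at hw ⊢
    rw [hFeq]
    exact hw
  obtain ⟨η, hη, hηF⟩ := hdir' w hwq
  have h3 : p + (s + η) • w ∈ C := by
    have := (hηF η hη.le le_rfl).1
    rwa [add_assoc, ← add_smul] at this
  have h4 : s + η ≤ s := hsmax ⟨by linarith, h3⟩
  linarith

end Pool.Agent.H56.KV.EXT
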