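import Pool.Agent.H61.KV.TS

/-!
# Kuiper board KV, module SIM: simplicial cones
-/

set_option autoImplicit false

open Set

namespace Pool.Agent.H56.KV.SIM

open Pool.Agent.H61.KV

/-- an orthonormal basis whose first vector is a positive multiple of a given vector -/
theorem exists_basis (b₀ : E5) (h0 : b₀ ≠ 0) :
    ∃ h : OrthonormalBasis (Fin 5) ℝ E5, h 0 = ‖b₀‖⁻¹ • b₀ := by
  have hr : 0 < ‖b₀‖ := norm_pos_iff.2 h0
  have hon : Orthonormal ℝ (({0} : Set (Fin 5)).domRestrict (fun _ : Fin 5 => ‖b₀‖⁻¹ • b₀)) := by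
    constructor
    · rintro ⟨i, hi⟩
      change ‖‖b₀‖⁻¹ • b₀‖ = 1
      rw [norm_smul, norm_inv, norm_norm, inv_mul_cancel₀ hr.ne']
    · rintro ⟨i, hi⟩ ⟨j, hj⟩ hij
      exfalso
      apply hij
      rw [mem_singleton_iff] at hi hj
      exact Subtype.ext (hi.trans hj.symm)
  obtain ⟨h, hh⟩ := hon.exists_orthonormalBasis_extension_of_card_eq (by simp)
  exact ⟨h, hh 0 rfl⟩

/-- the cone given by five functionals is contained in an open cone around `b₀` -/
theorem sim_aux (W : Set E5) (b₀ : E5) (hW : IsOpen W)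
    (hc : ∀ c : ℝ, 0 < c → ∀ b ∈ W, c • b ∈ W) (hb : b₀ ∈ W) (h0 : b₀ ≠ 0) :
    ∃ κ : Fin 5 → E5 →ₗ[ℝ] ℝ, (∀ i, 0 < κ i b₀) ∧ ∀ b, (∀ i, 0 < κ i b) → b ∈ W := by
  have hr : 0 < ‖b₀‖ := norm_pos_iff.2 h0
  obtain ⟨h, hh⟩ := exists_basis b₀ h0
  obtain ⟨δ, hδ, hball⟩ := Metric.isOpen_iff.1 hW b₀ hb
  have hb₀ : b₀ = ‖b₀‖ • h 0 := by
    rw [hh, smul_smul, mul_inv_cancel₀ hr.ne', one_smul]
  obtain ⟨r, hrdef⟩ : ∃ r : ℝ, r = ‖b₀‖ := ⟨_, rfl⟩
  rw [← hrdef] at hr hb₀
  obtain ⟨M, hM⟩ : ∃ M : ℝ, M = 17 * r / δ := ⟨_, rfl⟩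
  have hMpos : 0 < M := by rw [hM]; positivity
  obtain ⟨X, hX⟩ : ∃ X : Fin 5 → E5 →ₗ[ℝ] ℝ, ∀ i b, X i b = inner ℝ (h i) b :=
    ⟨fun i => innerₗ E5 (h i), fun _ _ => rfl⟩
  have hXb₀ : ∀ i, X i b₀ = if i = 0 then r else 0 := by
    intro i
    rw [hX, hb₀, inner_smul_right]
    have := orthonormal_iff_ite.1 h.orthonormal i 0
    rw [this]
    split_ifs <;> simp
  have e0 := hXb₀ 0
  have e1 := hXb₀ 1
  have e2 := hXb₀ 2
  have e3 := hXb₀ 3
  have e4 := hXb₀ 4
  rw [if_pos rfl] at e0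
  rw [if_neg (by decide)] at e1 e2 e3 e4
  refine ⟨![X 0 - M • (X 1 + X 2 + X 3 + X 4), X 0 + M • X 1, X 0 + M • X 2, X 0 + M • X 3,
    X 0 + M • X 4], ?_, ?_⟩
  · intro i
    fin_cases i <;> simp [e0, e1, e2, e3, e4, hr]
  · intro b hκ
    have k0 := hκ 0
    have k1 := hκ 1
    have k2 := hκ 2
    have k3 := hκ 3
    have k4 := hκ 4
    simp only [Matrix.cons_val, LinearMap.sub_apply, LinearMap.smul_apply, LinearMap.add_apply,
      smul_eq_mul] at k0 k1 k2 k3 k4
    have hx0 : 0 < X 0 b := by nlinarith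
    obtain ⟨c, hcdef⟩ : ∃ c : ℝ, c = r / X 0 b := ⟨_, rfl⟩
    have hcpos : 0 < c := by rw [hcdef]; positivity
    have hc0 : c * X 0 b = r := by rw [hcdef]; field_simp
    -- scaled inequalities
    have s0 := mul_pos hcpos k0
    have s1 := mul_pos hcpos k1
    have s2 := mul_pos hcpos k2
    have s3 := mul_pos hcpos k3
    have s4 := mul_pos hcpos k4
    have t1 : -(r / M) < c * X 1 b := by
      rw [neg_lt_iff_pos_add, ← mul_pos_iff_of_pos_left hMpos]
      have : M * (c * X 1 b + r / M) = c * (X 0 b + M * X 1 b) := by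
        rw [mul_add, mul_div_cancel₀ _ hMpos.ne', ← hc0]; ring
      rw [this]; exact s1
    have t2 : -(r / M) < c * X 2 b := by
      rw [neg_lt_iff_pos_add, ← mul_pos_iff_of_pos_left hMpos]
      have : M * (c * X 2 b + r / M) = c * (X 0 b + M * X 2 b) := by
        rw [mul_add, mul_div_cancel₀ _ hMpos.ne', ← hc0]; ring
      rw [this]; exact s2
    have t3 : -(r / M) < c * X 3 b := by
      rw [neg_lt_iff_pos_add, ← mul_pos_iff_of_pos_left hMpos]
      have : M * (c * X 3 b + r / M) = c * (X 0 b + M * X 3 b) := by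
        rw [mul_add, mul_div_cancel₀ _ hMpos.ne', ← hc0]; ring
      rw [this]; exact s3
    have t4 : -(r / M) < c * X 4 b := by
      rw [neg_lt_iff_pos_add, ← mul_pos_iff_of_pos_left hMpos]
      have : M * (c * X 4 b + r / M) = c * (X 0 b + M * X 4 b) := by
        rw [mul_add, mul_div_cancel₀ _ hMpos.ne', ← hc0]; ring
      rw [this]; exact s4
    have t0 : c * X 1 b + c * X 2 b + c * X 3 b + c * X 4 b < r / M := by
      rw [← sub_pos, ← mul_pos_iff_of_pos_left hMpos]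
      have : M * (r / M - (c * X 1 b + c * X 2 b + c * X 3 b + c * X 4 b)) =
          c * (X 0 b - M * (X 1 b + X 2 b + X 3 b + X 4 b)) := by
        rw [mul_sub, mul_div_cancel₀ _ hMpos.ne', ← hc0]; ring
      rw [this]; exact s0
    have hrM : 0 < r / M := div_pos hr hMpos
    have a1 : |c * X 1 b| ≤ 4 * (r / M) := abs_le.2 ⟨by linarith, by linarith⟩
    have a2 : |c * X 2 b| ≤ 4 * (r / M) := abs_le.2 ⟨by linarith, by linarith⟩
    have a3 : |c * X 3 b| ≤ 4 * (r / M) := abs_le.2 ⟨by linarith, by linarith⟩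
    have a4 : |c * X 4 b| ≤ 4 * (r / M) := abs_le.2 ⟨by linarith, by linarith⟩
    have hcoord : ∀ i, |inner ℝ (h i) (c • b - b₀)| ≤ if i = 0 then 0 else 4 * (r / M) := by
      intro i
      rw [← hX, map_sub, map_smul, smul_eq_mul, hXb₀]
      fin_cases i
      · simp [hc0]
      · simpa using a1
      · simpa using a2
      · simpa using a3
      · simpa using a4
    have hnorm : ‖c • b - b₀‖ ≤ 16 * (r / M) := by
      rw [← h.sum_repr' (c • b - b₀)]
      refine (norm_sum_le _ _).trans ?_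
      calc ∑ i, ‖inner ℝ (h i) (c • b - b₀) • h i‖
          = ∑ i, |inner ℝ (h i) (c • b - b₀)| := by
            apply Finset.sum_congr rfl
            intro i _
            rw [norm_smul, h.norm_eq_one, mul_one, Real.norm_eq_abs]
        _ ≤ ∑ i : Fin 5, (if i = 0 then 0 else 4 * (r / M)) := Finset.sum_le_sum fun i _ => hcoord i
        _ = 16 * (r / M) := by
            simp [Fin.sum_univ_five]
            ring
    have hin : c • b ∈ W := by
      apply hball
      rw [Metric.mem_ball, dist_eq_norm]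
      refine lt_of_le_of_lt hnorm ?_
      have : r / M = δ / 17 := by
        rw [hM]; field_simp
      rw [this]; linarith
    have := hc c⁻¹ (inv_pos.2 hcpos) _ hin
    rwa [smul_smul, inv_mul_cancel₀ hcpos.ne', one_smul] at this

theorem pf_SIM : T_SIM := by
  intro W b₀ hW _ hc hb h0
  exact sim_aux W b₀ hW hc hb h0

end Pool.Agent.H56.KV.SIM
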